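import Pool.Agent.CPT.StmtsA

/-!
# Squad CPT, row SBL: linear substitutions
-/

set_option autoImplicit false

namespace Pool.Agent.CPT.H62

open MvPolynomial Pool.Agent.BSH Pool.Agent.Helper78_ACIT

/-- **Row SBL**. -/
theorem sbl (hMap : BSH.MapStmt) : SblStmt := by
  intro E _ n k s F φ hF hφ
  obtain ⟨l, hl, hc, hm⟩ := hF
  have h := hMap E (MvPolynomial (Fin n) E) (MvPolynomial (Fin k) E) φ (Set.range X)
    (Set.range X) l [] hc trivial (by
      rintro x ⟨i, rfl⟩
      exact hφ i)
  rw [List.append_nil] at h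
  exact ⟨l.map φ, by rw [List.length_map]; exact hl, h.1, h.2 F hm⟩

end Pool.Agent.CPT.H62
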